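import Pool.Agent.Helper79.GL4.GoalsR

/-!
# GL4, packet EA (MP_27a5f8_al)
-/

set_option linter.unusedVariables false
set_option linter.unusedSectionVars false

namespace Pool.Agent.Helper20.GL4EA

open Module Submodule GL4

variable {F : Type} [Field F] {V : Type} [AddCommGroup V] [Module F V]

/-- `u ↦ u + f(u) z` -/
def tv (f : Module.Dual F V) (z : V) (h : 1 + f z ≠ 0) : V ≃ₗ[F] V where
  toFun u := u + f u • z
  map_add' u v := by simp only [map_add, add_smul]; abel
  map_smul' c u := by simp only [map_smul, smul_eq_mul, RingHom.id_apply, smul_add, mul_smul]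
  invFun u := u - ((1 + f z)⁻¹ * f u) • z
  left_inv u := by
    simp only [map_add, map_smul, smul_eq_mul]
    have : (1 + f z)⁻¹ * (f u + f u * f z) = f u := by
      field_simp
    rw [this]; abel
  right_inv u := by
    simp only [map_sub, map_smul, smul_eq_mul]
    have : f u - (1 + f z)⁻¹ * f u * f z = (1 + f z)⁻¹ * f u := by
      field_simp
      ring
    rw [this]; abel

theorem tv_apply (f : Module.Dual F V) (z : V) (h : 1 + f z ≠ 0) (u : V) :
    tv f z h u = u + f u • z := rfl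

/-- dilation -/
theorem exists_dil (f : Module.Dual F V) (v : V) (hv : f v = 1) (t : Fˣ) :
    ∃ g : V ≃ₗ[F] V, ∀ u, g u = u + (((t : F) - 1) * f u) • v := by
  refine ⟨tv f (((t : F) - 1) • v) ?_, fun u => ?_⟩
  · rw [map_smul, smul_eq_mul, hv]; simp
  · rw [tv_apply, smul_smul, mul_comm]

theorem exists_form {U : Submodule F V} {v : V} (hv : v ∉ U) :
    ∃ f : Module.Dual F V, f v = 1 ∧ ∀ u ∈ U, f u = 0 := by
  obtain ⟨f, hf, hU⟩ := Submodule.exists_le_ker_of_notMem hv
  refine ⟨(f v)⁻¹ • f, ?_, fun u hu => ?_⟩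
  · rw [LinearMap.smul_apply, smul_eq_mul, inv_mul_cancel₀ hf]
  · rw [LinearMap.smul_apply, show f u = 0 from hU hu, smul_zero]

theorem exists_move [FiniteDimensional F V] {U : Submodule F V} {p p' : V} (hp : p ∉ U)
    (hp' : p' ∉ U) : ∃ g : V ≃ₗ[F] V, g p = p' ∧ ∀ u ∈ U, g u = u := by
  obtain ⟨H, hH, hU, h1, h2⟩ := exists_hy_not_ge₂ (T := U) (A := F ∙ p) (B := F ∙ p')
    (by rw [span_singleton_le_iff_mem]; exact hp) (by rw [span_singleton_le_iff_mem]; exact hp')
  obtain ⟨f, hf, rfl⟩ := hH.exists_ker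
  rw [span_singleton_le_iff_mem, LinearMap.mem_ker] at h1 h2
  refine ⟨tv ((f p)⁻¹ • f) (p' - p) ?_, ?_, fun u hu => ?_⟩
  · rw [LinearMap.smul_apply, map_sub, smul_eq_mul, mul_sub, inv_mul_cancel₀ h1]
    simpa using ⟨h1, h2⟩
  · rw [tv_apply, LinearMap.smul_apply, smul_eq_mul, inv_mul_cancel₀ h1, one_smul]; abel
  · rw [tv_apply, LinearMap.smul_apply, show f u = 0 from hU hu, smul_zero, zero_smul, add_zero]

/-- triangular matrices -/
@[ext] structure Tri (F : Type) [Field F] where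
  a : Fˣ
  b : Fˣ
  c : F

namespace Tri

instance : Mul (Tri F) := ⟨fun s t => ⟨s.a * t.a, s.b * t.b, (s.b : F) * t.c + s.c * (t.a : F)⟩⟩
instance : One (Tri F) := ⟨⟨1, 1, 0⟩⟩
instance : Inv (Tri F) := ⟨fun t => ⟨t.a⁻¹, t.b⁻¹, -(((t.b⁻¹ : Fˣ) : F) * t.c * ((t.a⁻¹ : Fˣ) : F))⟩⟩

theorem mul_a (s t : Tri F) : (s * t).a = s.a * t.a := rfl
theorem mul_b (s t : Tri F) : (s * t).b = s.b * t.b := rfl
theorem mul_c (s t : Tri F) : (s * t).c = (s.b : F) * t.c + s.c * (t.a : F) := rfl
theorem one_a : (1 : Tri F).a = 1 := rfl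
theorem one_b : (1 : Tri F).b = 1 := rfl
theorem one_c : (1 : Tri F).c = 0 := rfl
theorem inv_a (t : Tri F) : (t⁻¹).a = t.a⁻¹ := rfl
theorem inv_b (t : Tri F) : (t⁻¹).b = t.b⁻¹ := rfl
theorem inv_c (t : Tri F) :
    (t⁻¹).c = -(((t.b⁻¹ : Fˣ) : F) * t.c * ((t.a⁻¹ : Fˣ) : F)) := rfl

instance : Group (Tri F) where
  mul_assoc r s t := by
    ext
    · simp only [mul_a, mul_assoc]
    · simp only [mul_b, mul_assoc]
    · simp only [mul_a, mul_b, mul_c, Units.val_mul]; ring
  one_mul t := by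
    ext
    · simp only [mul_a, one_a, one_mul]
    · simp only [mul_b, one_b, one_mul]
    · simp only [mul_c, one_b, one_c, Units.val_one]; ring
  mul_one t := by
    ext
    · simp only [mul_a, one_a, mul_one]
    · simp only [mul_b, one_b, mul_one]
    · simp only [mul_c, one_a, one_c, Units.val_one]; ring
  inv_mul_cancel t := by
    ext
    · simp only [mul_a, inv_a, inv_mul_cancel, one_a]
    · simp only [mul_b, inv_b, inv_mul_cancel, one_b]
    · simp only [mul_c, inv_b, inv_c, one_c]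
      have : ((t.a⁻¹ : Fˣ) : F) * (t.a : F) = 1 := by simp
      rw [neg_mul, mul_assoc _ ((t.a⁻¹ : Fˣ) : F), this]; ring

instance [Finite F] : Finite (Tri F) := by
  refine Finite.of_injective (fun t : Tri F => (t.a, t.b, t.c)) ?_
  intro s t h
  simp only [Prod.mk.injEq] at h
  exact Tri.ext h.1 h.2.1 h.2.2

/-- the linear character -/
noncomputable def lam (al : Fˣ →* ℂˣ) : Tri F →* ℂˣ where
  toFun t := al (t.a / t.b)
  map_one' := by rw [one_a, one_b, div_one, map_one]
  map_mul' s t := by rw [mul_a, mul_b, ← map_mul, div_mul_div_comm]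

end Tri

/-- pairs of linearly independent vectors -/
def Pr (F V : Type) [Field F] [AddCommGroup V] [Module F V] : Type :=
  {p : V × V // p.1 ≠ 0 ∧ p.2 ∉ F ∙ p.1}

instance [Finite V] : Finite (Pr F V) := inferInstanceAs (Finite {p : V × V // _})

theorem notMem_iff {v w : V} : w ∉ F ∙ v ↔ ∀ c : F, c • v ≠ w := by
  rw [mem_span_singleton]; push Not; rfl

instance : MulAction (V ≃ₗ[F] V) (Pr F V) where
  smul g x := ⟨(g x.1.1, g x.1.2), (map_ne_zero_iff g g.injective).2 x.2.1, by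
    rw [notMem_iff]
    intro c hc
    have h2 := x.2.2
    rw [notMem_iff] at h2
    apply h2 c
    apply g.injective
    rw [map_smul]; exact hc⟩
  one_smul x := rfl
  mul_smul g h x := rfl

theorem tri_aux {v w : V} (h : w ∉ F ∙ v) (t : Tri F) :
    (t.b : F) • w + t.c • v ∉ F ∙ ((t.a : F) • v) := by
  rw [notMem_iff] at h ⊢
  intro c hc
  apply h ((t.b : F)⁻¹ * (c * t.a - t.c))
  have hb : (t.b : F) ≠ 0 := t.b.ne_zero
  have : (t.b : F) • w = (c * t.a - t.c) • v := by
    rw [sub_smul, mul_smul, hc]; abel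
  rw [mul_smul, ← this, smul_smul, inv_mul_cancel₀ hb, one_smul]

instance : MulAction (Tri F) (Pr F V) where
  smul t x := ⟨((t.a : F) • x.1.1, (t.b : F) • x.1.2 + t.c • x.1.1),
    smul_ne_zero t.a.ne_zero x.2.1, tri_aux x.2.2 t⟩
  one_smul x := by
    apply Subtype.ext
    change ((((1 : Tri F).a : Fˣ) : F) • x.1.1, (((1 : Tri F).b : Fˣ) : F) • x.1.2 + (1 : Tri F).c • x.1.1) = x.1
    rw [Tri.one_a, Tri.one_b, Tri.one_c]; simp
  mul_smul s t x := by
    apply Subtype.ext
    change ((((s * t).a : Fˣ) : F) • x.1.1, (((s * t).b : Fˣ) : F) • x.1.2 + (s * t).c • x.1.1) =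
      ((s.a : F) • ((t.a : F) • x.1.1), (s.b : F) • ((t.b : F) • x.1.2 + t.c • x.1.1) + s.c • ((t.a : F) • x.1.1))
    rw [Tri.mul_a, Tri.mul_b, Tri.mul_c, Units.val_mul, Units.val_mul]
    refine Prod.ext ?_ ?_
    · exact mul_smul _ _ _
    · simp only [smul_add, add_smul, mul_smul]; abel

theorem g_smul (g : V ≃ₗ[F] V) (x : Pr F V) : (g • x).1 = (g x.1.1, g x.1.2) := rfl
theorem t_smul (t : Tri F) (x : Pr F V) :
    (t • x).1 = ((t.a : F) • x.1.1, (t.b : F) • x.1.2 + t.c • x.1.1) := rfl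

instance : SMulCommClass (V ≃ₗ[F] V) (Tri F) (Pr F V) where
  smul_comm g t x := by
    apply Subtype.ext
    rw [g_smul, t_smul, t_smul, g_smul]
    simp only [map_smul, map_add]

theorem free (t : Tri F) (x : Pr F V) (h : t • x = x) : t = 1 := by
  have h1 := congrArg (fun z : Pr F V => z.1.1) h
  have h2 := congrArg (fun z : Pr F V => z.1.2) h
  simp only [t_smul] at h1 h2
  obtain ⟨⟨v, w⟩, hv, hw⟩ := x
  simp only at h1 h2 hv hw
  rw [notMem_iff] at hw
  have ha : (t.a : F) = 1 := by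
    have : ((t.a : F) - 1) • v = 0 := by rw [sub_smul, h1, one_smul, sub_self]
    rcases smul_eq_zero.1 this with h | h
    · exact sub_eq_zero.1 h
    · exact absurd h hv
  have hb : (t.b : F) = 1 := by
    by_contra hb
    have hb' : (1 : F) - (t.b : F) ≠ 0 := sub_ne_zero.2 (Ne.symm hb)
    apply hw ((1 - (t.b : F))⁻¹ * t.c)
    have : (1 - (t.b : F)) • w = t.c • v := by
      rw [sub_smul, one_smul]
      nth_rewrite 1 [← h2]
      abel
    rw [mul_smul, ← this, smul_smul, inv_mul_cancel₀ hb', one_smul]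
  have hc : t.c = 0 := by
    rw [hb, one_smul] at h2
    have : t.c • v = 0 := by simpa using h2
    rcases smul_eq_zero.1 this with h | h
    · exact h
    · exact absurd h hv
  apply Tri.ext
  · exact Units.ext ha
  · exact Units.ext hb
  · exact hc

theorem trans [FiniteDimensional F V] (x y : Pr F V) :
    ∃ (g : V ≃ₗ[F] V) (t : Tri F), g • x = t • y := by
  obtain ⟨g, hg, -⟩ := exists_move (U := (⊥ : Submodule F V)) (p := x.1.1) (p' := y.1.1)
    (by simpa using x.2.1) (by simpa using y.2.1)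
  obtain ⟨h, hh, hU⟩ := exists_move (U := F ∙ y.1.1) (p := g x.1.2) (p' := y.1.2)
    (by have := (g • x).2.2
        rw [g_smul] at this
        simp only [hg] at this
        exact this) y.2.2
  refine ⟨h * g, 1, ?_⟩
  rw [one_smul]
  apply Subtype.ext
  rw [g_smul, LinearEquiv.mul_apply, LinearEquiv.mul_apply, hg, hh, hU _ (mem_span_singleton_self _)]

/-- the basic dilation in the direction of the first vector -/
theorem dil_first (f : Module.Dual F V) (x : Pr F V) (hf : f x.1.1 = 1) (t : Fˣ) :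
    ∃ g : V ≃ₗ[F] V, (∀ u, g u = u + (((t : F) - 1) * f u) • x.1.1) ∧
      g • x = (⟨t, 1, ((t : F) - 1) * f x.1.2⟩ : Tri F) • x := by
  obtain ⟨g, hg⟩ := exists_dil f x.1.1 hf t
  refine ⟨g, hg, Subtype.ext ?_⟩
  rw [g_smul, t_smul, hg, hg, hf]
  refine Prod.ext ?_ ?_
  · change x.1.1 + (((t : F) - 1) * 1) • x.1.1 = (t : F) • x.1.1
    rw [mul_one, sub_smul, one_smul]; abel
  · change x.1.2 + _ = ((1 : Fˣ) : F) • x.1.2 + _
    rw [Units.val_one, one_smul]

theorem mackey (al : Fˣ →* ℂˣ) (t0 : Fˣ) (h0 : al (t0 ^ 2) ≠ 1) (x y : Pr F V)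
    (hxy : ¬ ∃ t : Tri F, t • x = y) :
    ∃ (g : V ≃ₗ[F] V) (s t : Tri F), g • x = s • x ∧ g • y = t • y ∧
      Tri.lam al s ≠ Tri.lam al t := by
  have h1 : al t0 ≠ 1 := by
    intro h; apply h0; rw [map_pow, h, one_pow]
  have h2 : al t0 ≠ (al t0)⁻¹ := by
    intro h; apply h0; rw [map_pow, pow_two]
    nth_rewrite 2 [h]; exact mul_inv_cancel _
  set L' : Submodule F V := span F {y.1.1, y.1.2} with hL'
  have hy1 : y.1.1 ∈ L' := subset_span (by simp)
  have hy2 : y.1.2 ∈ L' := subset_span (by simp)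
  by_cases hv : x.1.1 ∈ L'
  · by_cases hw : x.1.2 ∈ L'
    · -- same line
      rw [hL', mem_span_pair] at hv hw
      obtain ⟨α, β, hαβ⟩ := hv
      obtain ⟨γ, δ, hγδ⟩ := hw
      have hn : y.1.1 ∉ F ∙ x.1.1 := by
        intro hmem
        obtain ⟨c, hc⟩ := mem_span_singleton.1 hmem
        apply hxy
        have hc0 : c ≠ 0 := by
          rintro rfl; apply y.2.1; rw [← hc, zero_smul]
        have hδ : δ ≠ 0 := by
          rintro rfl
          apply x.2.2
          rw [mem_span_singleton]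
          refine ⟨γ * c, ?_⟩
          rw [mul_smul, hc, ← hγδ, zero_smul, add_zero]
        refine ⟨⟨Units.mk0 c hc0, Units.mk0 δ⁻¹ (inv_ne_zero hδ), -(δ⁻¹ * γ * c)⟩, Subtype.ext ?_⟩
        rw [t_smul]
        refine Prod.ext ?_ ?_
        · simpa using hc
        · change δ⁻¹ • x.1.2 + (-(δ⁻¹ * γ * c)) • x.1.1 = y.1.2
          rw [← hγδ, smul_add, smul_smul, smul_smul, inv_mul_cancel₀ hδ, one_smul, neg_smul,
            mul_smul _ c, hc]
          abel
      have hn' : x.1.1 ∉ F ∙ y.1.1 := by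
        intro hmem
        obtain ⟨c, hc⟩ := mem_span_singleton.1 hmem
        apply hn
        have hc0 : c ≠ 0 := by
          rintro rfl; apply x.2.1; rw [← hc, zero_smul]
        rw [mem_span_singleton]
        refine ⟨c⁻¹, ?_⟩
        rw [← hc, smul_smul, inv_mul_cancel₀ hc0, one_smul]
      obtain ⟨f, hf, hU⟩ := exists_form hn'
      have hfy : f y.1.1 = 0 := hU _ (mem_span_singleton_self _)
      have hβ : β * f y.1.2 = 1 := by
        have := congrArg f hαβ
        rw [map_add, map_smul, map_smul, hfy, hf, smul_eq_mul, smul_eq_mul, mul_zero, zero_add] at this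
        exact this
      obtain ⟨g, hg, hgx⟩ := dil_first f x hf t0
      refine ⟨g, _, ⟨1, t0, ((t0 : F) - 1) * f y.1.2 * α⟩, hgx, Subtype.ext ?_, ?_⟩
      · rw [g_smul, t_smul, hg, hg, hfy]
        refine Prod.ext ?_ ?_
        · simp
        · change y.1.2 + (((t0 : F) - 1) * f y.1.2) • x.1.1 =
            (t0 : F) • y.1.2 + (((t0 : F) - 1) * f y.1.2 * α) • y.1.1
          rw [← hαβ, smul_add, smul_smul, smul_smul]
          have : ((t0 : F) - 1) * f y.1.2 * β = (t0 : F) - 1 := by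
            rw [mul_assoc, mul_comm (f y.1.2), hβ, mul_one]
          rw [this, sub_smul, one_smul]; abel
      · change al (t0 / 1) ≠ al (1 / t0)
        rw [div_one, one_div, map_inv]; exact h2
    · -- second vector moves
      obtain ⟨f, hf, hU⟩ := exists_form hw
      obtain ⟨g, hg⟩ := exists_dil f x.1.2 hf t0
      refine ⟨g, ⟨1, t0, 0⟩, 1, Subtype.ext ?_, ?_, ?_⟩
      · rw [g_smul, t_smul, hg, hg, hf, hU _ hv]
        refine Prod.ext ?_ ?_
        · simp
        · change x.1.2 + (((t0 : F) - 1) * 1) • x.1.2 = (t0 : F) • x.1.2 + (0 : F) • x.1.1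
          rw [mul_one, sub_smul, one_smul, zero_smul]; abel
      · rw [one_smul]
        apply Subtype.ext
        rw [g_smul, hg, hg, hU _ hy1, hU _ hy2]; simp
      · rw [map_one]
        change al (1 / t0) ≠ 1
        rw [one_div, map_inv]
        intro h; exact h1 (inv_eq_one.1 h)
  · obtain ⟨f, hf, hU⟩ := exists_form hv
    obtain ⟨g, hg, hgx⟩ := dil_first f x hf t0
    refine ⟨g, _, 1, hgx, ?_, ?_⟩
    · rw [one_smul]
      apply Subtype.ext
      rw [g_smul, hg, hg, hU _ hy1, hU _ hy2]; simp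
    · rw [map_one]
      change al (t0 / 1) ≠ 1
      rw [div_one]; exact h1

theorem exists_pr (F V : Type) [Field F] [AddCommGroup V] [Module F V] [FiniteDimensional F V]
    {L P : Submodule F V} (hP : Pt P) (hL : Ln L) (h : P ≤ L) :
    ∃ x : Pr F V, P = F ∙ x.1.1 ∧ L = P ⊔ F ∙ x.1.2 := by
  obtain ⟨v, hv, rfl⟩ := hP.exists_span
  have hlt : ¬ L ≤ F ∙ v := by
    intro hle
    have := Submodule.finrank_mono hle
    rw [hL, hP] at this
    omega
  obtain ⟨w, hwL, hw⟩ := Set.not_subset.1 hlt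
  have hw' : w ∉ F ∙ v := hw
  refine ⟨⟨(v, w), hv, hw'⟩, rfl, ?_⟩
  symm
  change (F ∙ v) ⊔ (F ∙ w) = L
  have hw0 : w ≠ 0 := by rintro rfl; exact hw (zero_mem _)
  refine Submodule.eq_of_le_of_finrank_eq (sup_le h ?_) ?_
  · rwa [span_singleton_le_iff_mem]
  · rw [finrank_sup_pt (pt_span hw0) (by rw [span_singleton_le_iff_mem]; exact hw'), hP, hL]

theorem thm (h : GL4.ML) : GL4.EA := by
  intro F _ _ V _ _ _ hn al hal
  obtain ⟨t0, h0⟩ := hal
  have hfV : Finite V := Module.finite_of_finite F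
  have h1 : al t0 ≠ 1 := by
    intro h; apply h0; rw [map_pow, h, one_pow]
  -- a point of X
  have hne : Nonempty (Pr F V) := by
    have hnt : Nontrivial V := Module.nontrivial_of_finrank_pos (R := F) (by omega)
    obtain ⟨v, hv⟩ := exists_ne (0 : V)
    have : ¬ (⊤ : Submodule F V) ≤ F ∙ v := by
      intro hle
      have := Submodule.finrank_mono hle
      rw [finrank_top, pt_span hv] at this
      omega
    obtain ⟨w, -, hw⟩ := Set.not_subset.1 this
    exact ⟨⟨(v, w), hv, hw⟩⟩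
  obtain ⟨χ, hχ, hχ1, hK⟩ := h (V ≃ₗ[F] V) (Tri F) (Pr F V) (Tri.lam al) free trans
    (mackey al t0 h0) (by
      obtain ⟨x⟩ := hne
      obtain ⟨f, hf, -⟩ := exists_form (U := (⊥ : Submodule F V)) (v := x.1.1) (by simpa using x.2.1)
      obtain ⟨g, hg, hgx⟩ := dil_first f x hf t0
      refine ⟨x, g, _, hgx, ?_⟩
      change al (t0 / 1) ≠ 1
      rw [div_one]; exact h1)
  refine ⟨χ, hχ, hχ1, fun K hKm P L hP hL hPL => ?_⟩
  obtain ⟨x, hxP, hxL⟩ := exists_pr F V hP hL hPL
  obtain ⟨k, hk, t, hkt, hlam⟩ := hK K hKm x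
  have e1 : k x.1.1 = (t.a : F) • x.1.1 := congrArg (fun z : Pr F V => z.1.1) hkt
  have e2 : k x.1.2 = (t.b : F) • x.1.2 + t.c • x.1.1 := congrArg (fun z : Pr F V => z.1.2) hkt
  refine ⟨k, hk, t.a, t.b, ?_, ?_, hlam⟩
  · intro v hv
    rw [hxP] at hv
    obtain ⟨r, rfl⟩ := mem_span_singleton.1 hv
    rw [map_smul, e1, smul_comm]
  · intro u hu
    rw [hxL, hxP] at hu
    obtain ⟨p, hp, s', hs', rfl⟩ := mem_sup.1 hu
    obtain ⟨r, rfl⟩ := mem_span_singleton.1 hp
    obtain ⟨s, rfl⟩ := mem_span_singleton.1 hs'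
    have hvP : x.1.1 ∈ P := by rw [hxP]; exact mem_span_singleton_self _
    have hvL : x.1.1 ∈ L := hPL hvP
    have hwL : x.1.2 ∈ L := by
      rw [hxL]; exact mem_sup_right (mem_span_singleton_self _)
    constructor
    · rw [map_add, map_smul, map_smul, e1, e2]
      exact add_mem (smul_mem _ _ (smul_mem _ _ hvL))
        (smul_mem _ _ (add_mem (smul_mem _ _ hwL) (smul_mem _ _ hvL)))
    · have : k (r • x.1.1 + s • x.1.2) - (t.b : F) • (r • x.1.1 + s • x.1.2) =
          (r * t.a + s * t.c - t.b * r) • x.1.1 := by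
        rw [map_add, map_smul, map_smul, e1, e2]
        simp only [smul_add, add_smul, sub_smul, mul_smul]
        rw [smul_comm s (t.b : F)]
        abel
      rw [this]
      exact smul_mem _ _ hvP

end Pool.Agent.Helper20.GL4EA
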